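import Pool.Agent.H51.F3.Defs
import Pool.Agent.H51.NS.Any
import Pool.Agent.H51.NS.Chief

/-!
# H51-F3-FLD: fields, for every nilpotent group, from `PLn p` and from `PUn p` (MP_b39724_nt)

* `frm`: the frame (representatives of the classes of least index).
* `asy3`: the asymptotic formula over one `K`, `fin3`: the final theorem.
* `upb3`: the upper bound over one `K`, `ubx3`: the final theorem.
-/

set_option autoImplicit false

open scoped NumberField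
open IsDedekindDomain Filter Topology H38.ML
open scoped Classical

noncomputable section

namespace H51.F3

open H63.MA H38.BB H38.BG H57.PC H57.BRA H63.BU H77.PC3 H57.CC H38.AS H77.S0T H77.AB H77.GN
  H77.UX H77.FLD H77.PLF H51.PF H51.NS

/-- the frame: representatives of the classes of least index, in the Sylow subgroup -/
theorem frm (n : ℕ) (hn : 2 ≤ n) (G : Subgroup (Equiv.Perm (Fin n)))
    (hG : MulAction.IsPretransitive G (Fin n)) (hnil : Group.IsNilpotent G) (p : ℕ)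
    (hp : p.Prime) (hL : ∀ h ∈ Li G, h ^ p = 1) (S : Sylow p G)
    [hSn : (S : Subgroup G).Normal] :
    p ∣ Nat.card G ∧ Nat.Coprime (Nat.card S) (Nat.card (G ⧸ (S : Subgroup G))) ∧
    ∃ (N : ℕ) (_ : 1 ≤ N) (Q : GX p N G S (G ⧸ (S : Subgroup G))),
      ∀ h : G, (h ≠ 1 ∧ ind (h : Equiv.Perm (Fin n)) = indG G) ↔ ∃ i, IsConj h (Q.cl.g i) := by
  have : Fact p.Prime := ⟨hp⟩
  obtain ⟨ha, ⟨g₀, hg₀, hg₀'⟩, hmin, hcj, hJ⟩ := pidx_pos hn G hG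
  obtain ⟨N, g, hgΛ, uni, hI'⟩ := ncl G {h : G | h ≠ 1 ∧ ind (h : Equiv.Perm (Fin n)) = indG G}
    (fun h hh => hh.1) (by
      rintro h ⟨h1, h2⟩ k hk
      refine ⟨?_, ?_⟩
      · intro hk1
        rw [hk1] at hk
        exact h1 (isConj_one_left.1 hk)
      · obtain ⟨x, rfl⟩ := isConj_iff.1 hk
        exact hcj h x h1 h2)
  have hpd : p ∣ Nat.card G := by
    have h2 := hL g₀ ⟨hg₀, hg₀'⟩
    have h3 : orderOf g₀ = p := orderOf_eq_prime h2 hg₀ (hp := ⟨hp⟩)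
    rw [← h3]
    exact orderOf_dvd_natCard g₀
  have hgS : ∀ i, g i ∈ (S : Subgroup G) := fun i =>
    nil_mem hnil hp S ⟨1, by rw [pow_one]; exact hL _ (hgΛ i)⟩
  obtain ⟨Q, hQ, -⟩ := exists_gx2 hp hnil hpd S g (fun i => hL _ (hgΛ i)) (fun i => (hgΛ i).1)
    uni hgS
  refine ⟨hpd, ?_, N, ?_, Q, fun h => ?_⟩
  · have h5 := S.not_dvd_index
    rw [Subgroup.index] at h5
    obtain ⟨k, hk⟩ := IsPGroup.iff_card.mp S.isPGroup'
    rw [hk]
    exact Nat.Coprime.pow_left k ((Nat.Prime.coprime_iff_not_dvd hp).2 h5)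
  · obtain ⟨i, -⟩ := (hI' g₀).1 ⟨hg₀, hg₀'⟩
    exact Nat.one_le_iff_ne_zero.2 fun h => by
      subst h
      exact i.elim0
  · rw [hQ]
    exact hI' h

/-- the asymptotic formula over one `K` -/
theorem asy3q (n : ℕ) (hn : 2 ≤ n) (G : Subgroup (Equiv.Perm (Fin n)))
    (hG : MulAction.IsPretransitive G (Fin n)) (hnil : Group.IsNilpotent G) (p : ℕ)
    (hp : p.Prime) (hL : ∀ h ∈ Li G, h ^ p = 1) (S : Sylow p G) (M : ℕ) (hM : 2 ≤ M)
    [hSn : (S : Subgroup G).Normal]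
    (hPL : ∀ (N : ℕ) (Q : GX p N G S (G ⧸ (S : Subgroup G))) (_ : 1 ≤ N)
      (_ : ∀ h : G, (h ≠ 1 ∧ ind (h : Equiv.Perm (Fin n)) = indG G) ↔ ∃ i, IsConj h (Q.cl.g i)),
      PLimT p M Q.cP (Tc Q.cP) ∧ PUb p M Q.cP ∧ PPos2 p M Q.cP)
    (K : IntermediateField ℚ (AlgebraicClosure ℚ)) [hKf : NumberField K]
    (hρ : ∃ ρ : Gal(QBar/K) →* G, Function.Surjective ρ ∧ FT ρ)
    (hz : ∃ z : K, IsPrimitiveRoot z (Nat.card G)) (hz₂ : ∃ z : K, IsPrimitiveRoot z (p ^ M)) :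
    Asy G K := by
  have : NeZero p := ⟨hp.ne_zero⟩
  have : Fact p.Prime := ⟨hp⟩
  have hcardpos : 0 < Nat.card G := Nat.card_pos
  obtain ⟨hpd, hco, N, hN, Q, hIQ⟩ := frm n hn G hG hnil p hp hL S
  have hP : IsPGroup p S := S.isPGroup'
  obtain ⟨hLm, hU, hPo⟩ := hPL N Q hN hIQ
  obtain ⟨c₀, hc₀, hnk⟩ := nk2 G hG
  have i₀ : Fin n := ⟨0, by omega⟩
  obtain ⟨φ₀, hs, hφ₀⟩ := hρ
  obtain ⟨z, hz⟩ := hz
  obtain ⟨z₂, hz2⟩ := hz₂
  have hp2 : MOne p K := mone_of hp hM hz2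
  obtain ⟨r, hr⟩ := hpd
  have hζ : IsPrimitiveRoot (z ^ r) p := hz.pow hcardpos (by rw [hr]; ring)
  obtain ⟨c₁, B₀, hc₁, hlo⟩ := fin_lo2 G K hn hG hp hp2 hζ hz2 Q hco hPo hIQ φ₀ hs hφ₀
  obtain ⟨hfin, c, hcl⟩ := fin_limt G K hn hG hnil hp hp2 hζ hz2 Q hP _ hU hLm hIQ z hz i₀
  have hβ := lbet G K z hz Q.cl.g Q.cl.uni hIQ
  have hk : ∀ B : ℝ, ∃ k : ℕ, Spec.nK K QBar G B = (k : ℕ∞) ∧
      k * c₀ = (CfinS G K i₀ B).ncard := fun B => hnk K hKf i₀ B (hfin B)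
  choose k hk1 hk2 using hk
  have hc₀R : (0 : ℝ) < (c₀ : ℝ) := by exact_mod_cast hc₀
  have hlim : Tendsto (fun B : ℝ => (k B : ℝ) /
        (B ^ (1 / (Spec.indG G : ℝ)) * Real.log B ^ (Spec.betaAll K QBar G - 1)))
        atTop (𝓝 (c / (c₀ : ℝ))) := by
    refine (hcl.div_const (c₀ : ℝ)).congr fun B => ?_
    rw [← hk2 B, hβ]
    push_cast
    have : H38.ML.indG G = Spec.indG G := rfl
    rw [this]
    field_simp
  refine ⟨c / (c₀ : ℝ), ?_, k, hk1, hlim⟩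
  refine lt_of_lt_of_le hc₁ (ge_of_tendsto hlim ?_)
  filter_upwards [eventually_ge_atTop B₀, eventually_gt_atTop 1] with B hB hB1
  have h1 := hlo B hB
  rw [show Spec.nK K (AlgebraicClosure ℚ) G B = (k B : ℕ∞) from hk1 B] at h1
  have h2 : (⌈c₁ * B ^ (1 / (indG G : ℝ)) * Real.log B ^ (N - 1)⌉₊ : ℕ) ≤ k B := by
    exact_mod_cast h1
  have h3 : c₁ * B ^ (1 / (indG G : ℝ)) * Real.log B ^ (N - 1) ≤ (k B : ℝ) :=
    (Nat.le_ceil _).trans (by exact_mod_cast h2)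
  rw [hβ]
  have hP : 0 < B ^ (1 / (Spec.indG G : ℝ)) * Real.log B ^ (N - 1) :=
    mul_pos (Real.rpow_pos_of_pos (by linarith) _) (pow_pos (Real.log_pos hB1) _)
  rw [le_div_iff₀ hP, ← mul_assoc]
  exact h3

/-- the asymptotic formula, hand-in form, general version -/
theorem fin3q (n : ℕ) (hn : 2 ≤ n)
    (G : Subgroup (Equiv.Perm (Fin n))) (hG : MulAction.IsPretransitive G (Fin n))
    (hnil : Group.IsNilpotent G)
    (hPL : ∀ p : ℕ, p.Prime → (∃ h ∈ Li G, orderOf h = p) → ∀ S : Sylow p G, ∃ M : ℕ, 2 ≤ M ∧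
      ∀ (_ : (S : Subgroup G).Normal) (N : ℕ) (Q : GX p N G S (G ⧸ (S : Subgroup G))) (_ : 1 ≤ N)
      (_ : ∀ h : G, (h ≠ 1 ∧ ind (h : Equiv.Perm (Fin n)) = indG G) ↔ ∃ i, IsConj h (Q.cl.g i)),
      PLimT p M Q.cP (Tc Q.cP) ∧ PUb p M Q.cP ∧ PPos2 p M Q.cP) :
    ∃ m : ℕ, 0 < m ∧ ∃ K₀ : IntermediateField ℚ (AlgebraicClosure ℚ), NumberField K₀ ∧
      ∀ K : IntermediateField ℚ (AlgebraicClosure ℚ), ∀ _ : NumberField K,
      (∃ z : K, IsPrimitiveRoot z m) →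
        (K₀ ≤ K ∨ Spec.IsGaloisGroup K (AlgebraicClosure ℚ) G) →
          (∀ B : ℝ, Spec.nK K (AlgebraicClosure ℚ) G B ≠ ⊤) ∧
          ∃ C : ℝ, 0 < C ∧ Filter.Tendsto
            (fun B : ℝ => ((Spec.nK K (AlgebraicClosure ℚ) G B).toNat : ℝ) /
              (B ^ (1 / (Spec.indG G : ℝ)) *
                Real.log B ^ (Spec.betaAll K (AlgebraicClosure ℚ) G - 1)))
            Filter.atTop (nhds C) := by
  obtain ⟨-, ⟨g₀, hg₀, hg₀'⟩, -, -, -⟩ := H38.BG.pidx_pos hn G hG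
  obtain ⟨p, hpd⟩ : ∃ p, p = orderOf g₀ := ⟨_, rfl⟩
  have hp : p.Prime := by
    rw [hpd]
    exact H38.ML.prime_of_least G g₀ hg₀ hg₀'
  have hL : ∀ h ∈ Li G, h ^ p = 1 := fun h hh => by
    rw [hpd, ← trg hn hG hnil h g₀ hh.1 hg₀ hh.2 hg₀']
    exact pow_orderOf_eq_one h
  have : Fact p.Prime := ⟨hp⟩
  have : NeZero p := ⟨hp.ne_zero⟩
  obtain ⟨S⟩ : Nonempty (Sylow p G) := inferInstance
  obtain ⟨M, hM, hPLS⟩ := hPL p hp ⟨g₀, ⟨hg₀, hg₀'⟩, hpd.symm⟩ S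
  have hSn := nil_normal hnil hp S
  obtain ⟨K₀, hK₀, h0⟩ := H38.BG.akn G
  have hcard : 0 < Nat.card G := Nat.card_pos
  have hm : 0 < Nat.card G * p ^ M := by
    have := hp.pos
    positivity
  refine ⟨Nat.card G * p ^ M, hm, K₀, hK₀, fun K hK hz hG' => ?_⟩
  obtain ⟨z, hz⟩ := hz
  have hz1 : ∃ z : K, IsPrimitiveRoot z (Nat.card G) := ⟨z ^ (p ^ M), hz.pow hm (by ring)⟩
  have hzM : ∃ z : K, IsPrimitiveRoot z (p ^ M) := ⟨z ^ (Nat.card G), hz.pow hm (by ring)⟩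
  have hρ : ∃ ρ : Gal(H38.ML.QBar/K) →* G, Function.Surjective ρ ∧ H38.ML.FT ρ := by
    rcases hG' with h | h
    · exact (h0 K h hK).1
    · exact h
  obtain ⟨C, hC, k, hk, hl⟩ := asy3q n hn G hG hnil p hp hL S M hM (hPLS hSn) K hρ hz1 hzM
  refine ⟨fun B => ?_, C, hC, ?_⟩
  · rw [hk B]
    exact ENat.natCast_ne_top _
  · refine hl.congr fun B => ?_
    rw [hk B, ENat.toNat_natCast]

/-- the asymptotic formula for every nilpotent group, hand-in form; `PLn p` for the order of the elements of least index only -/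
theorem fin3g (n : ℕ) (hn : 2 ≤ n)
    (G : Subgroup (Equiv.Perm (Fin n))) (hG : MulAction.IsPretransitive G (Fin n))
    (hnil : Group.IsNilpotent G)
    (hPL : ∀ p : ℕ, p.Prime → (∃ h ∈ Li G, orderOf h = p) → PLn p) :
    ∃ m : ℕ, 0 < m ∧ ∃ K₀ : IntermediateField ℚ (AlgebraicClosure ℚ), NumberField K₀ ∧
      ∀ K : IntermediateField ℚ (AlgebraicClosure ℚ), ∀ _ : NumberField K,
      (∃ z : K, IsPrimitiveRoot z m) →
        (K₀ ≤ K ∨ Spec.IsGaloisGroup K (AlgebraicClosure ℚ) G) →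
          (∀ B : ℝ, Spec.nK K (AlgebraicClosure ℚ) G B ≠ ⊤) ∧
          ∃ C : ℝ, 0 < C ∧ Filter.Tendsto
            (fun B : ℝ => ((Spec.nK K (AlgebraicClosure ℚ) G B).toNat : ℝ) /
              (B ^ (1 / (Spec.indG G : ℝ)) *
                Real.log B ^ (Spec.betaAll K (AlgebraicClosure ℚ) G - 1)))
            Filter.atTop (nhds C) :=
  fin3q n hn G hG hnil fun p hp hh S => by
    have : Fact p.Prime := ⟨hp⟩
    obtain ⟨M, hM, h⟩ := hPL p hp hh S S.isPGroup'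
    exact ⟨M, hM, fun _ N Q hN _ => h N Q.cP hN⟩

/-- the image of the group generated by the elements of least index -/
theorem tc_map {n p N : ℕ} {G : Subgroup (Equiv.Perm (Fin n))} {P H : Type} [Group P] [Group H]
    (Q : GX p N G P H)
    (hI : ∀ h : G, (h ≠ 1 ∧ ind (h : Equiv.Perm (Fin n)) = indG G) ↔ ∃ i, IsConj h (Q.cl.g i)) :
    Tc Q.cP = (Subgroup.closure {h : G | h ≠ 1 ∧ ind (h : Equiv.Perm (Fin n)) = indG G}).map Q.pr := by
  have h1 : Subgroup.closure {h : G | h ≠ 1 ∧ ind (h : Equiv.Perm (Fin n)) = indG G} =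
      Subgroup.normalClosure (Set.range Q.cl.g) := by
    unfold Subgroup.normalClosure
    congr 1
    ext h
    rw [Set.mem_setOf_eq, hI, Group.mem_conjugatesOfSet_iff]
    constructor
    · rintro ⟨i, hi⟩
      exact ⟨Q.cl.g i, ⟨i, rfl⟩, hi.symm⟩
    · rintro ⟨_, ⟨i, rfl⟩, hi⟩
      exact ⟨i, hi.symm⟩
  have h2 : (Q.pr ∘ Q.cl.g) = Q.cP.g := funext Q.hcl
  rw [h1, Subgroup.map_normalClosure _ _ Q.prs, ← Set.range_comp, h2]

/-- the asymptotic formula if the group generated by the elements of least index has class at most `k i`, `PLnk p (k p)` -/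
theorem fin3k (n : ℕ) (hn : 2 ≤ n)
    (G : Subgroup (Equiv.Perm (Fin n))) (hG : MulAction.IsPretransitive G (Fin n))
    (hnil : Group.IsNilpotent G) (k : ℕ)
    (hT : (Subgroup.closure {h : G | h ≠ 1 ∧ ind (h : Equiv.Perm (Fin n)) = indG G}).lowerCentralSeries k = ⊥)
    (hPL : ∀ p : ℕ, p.Prime → (∃ h ∈ Li G, orderOf h = p) → PLnk p k) :
    ∃ m : ℕ, 0 < m ∧ ∃ K₀ : IntermediateField ℚ (AlgebraicClosure ℚ), NumberField K₀ ∧
      ∀ K : IntermediateField ℚ (AlgebraicClosure ℚ), ∀ _ : NumberField K,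
      (∃ z : K, IsPrimitiveRoot z m) →
        (K₀ ≤ K ∨ Spec.IsGaloisGroup K (AlgebraicClosure ℚ) G) →
          (∀ B : ℝ, Spec.nK K (AlgebraicClosure ℚ) G B ≠ ⊤) ∧
          ∃ C : ℝ, 0 < C ∧ Filter.Tendsto
            (fun B : ℝ => ((Spec.nK K (AlgebraicClosure ℚ) G B).toNat : ℝ) /
              (B ^ (1 / (Spec.indG G : ℝ)) *
                Real.log B ^ (Spec.betaAll K (AlgebraicClosure ℚ) G - 1)))
            Filter.atTop (nhds C) :=
  fin3q n hn G hG hnil fun p hp hh S => by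
    have : Fact p.Prime := ⟨hp⟩
    obtain ⟨M, hM, h⟩ := hPL p hp hh S S.isPGroup'
    refine ⟨M, hM, fun _ N Q hN hQ => h N Q.cP hN ?_⟩
    rw [tc_map Q hQ, ← Subgroup.map_lowerCentralSeries, hT, Subgroup.map_bot]

/-- the asymptotic formula for every nilpotent group, hand-in form -/
theorem fin3 (hPL : ∀ p : ℕ, p.Prime → PLn p) (n : ℕ) (hn : 2 ≤ n)
    (G : Subgroup (Equiv.Perm (Fin n))) (hG : MulAction.IsPretransitive G (Fin n))
    (hnil : Group.IsNilpotent G) :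
    ∃ m : ℕ, 0 < m ∧ ∃ K₀ : IntermediateField ℚ (AlgebraicClosure ℚ), NumberField K₀ ∧
      ∀ K : IntermediateField ℚ (AlgebraicClosure ℚ), ∀ _ : NumberField K,
      (∃ z : K, IsPrimitiveRoot z m) →
        (K₀ ≤ K ∨ Spec.IsGaloisGroup K (AlgebraicClosure ℚ) G) →
          (∀ B : ℝ, Spec.nK K (AlgebraicClosure ℚ) G B ≠ ⊤) ∧
          ∃ C : ℝ, 0 < C ∧ Filter.Tendsto
            (fun B : ℝ => ((Spec.nK K (AlgebraicClosure ℚ) G B).toNat : ℝ) /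
              (B ^ (1 / (Spec.indG G : ℝ)) *
                Real.log B ^ (Spec.betaAll K (AlgebraicClosure ℚ) G - 1)))
            Filter.atTop (nhds C) :=
  fin3g n hn G hG hnil fun p hp _ => hPL p hp

section up

variable {n : ℕ} (G : Subgroup (Equiv.Perm (Fin n))) (K : IntermediateField ℚ QBar)
  [NumberField K]

/-- the number of surjective homomorphisms, upper bound -/
theorem fin_up (hn : 2 ≤ n) (hG : MulAction.IsPretransitive G (Fin n))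
    (hnil : Group.IsNilpotent G) {p : ℕ} [NeZero p] (hp : p.Prime) (hp2 : MOne p K) {ζ : K}
    (hζ : IsPrimitiveRoot ζ p) {M : ℕ} {z₂ : K} (hz2 : IsPrimitiveRoot z₂ (p ^ M)) {N : ℕ}
    {P H : Type} [Group P] [Group H] (Q : GX p N G P H) (hP : IsPGroup p P)
    (hU : PUb p M Q.cP)
    (hI : ∀ h : G, (h ≠ 1 ∧ ind (h : Equiv.Perm (Fin n)) = indG G) ↔
      ∃ i, IsConj h (Q.cl.g i))
    (z : K) (hz : IsPrimitiveRoot z (Nat.card G)) (i₀ : Fin n) :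
    (∀ B, (CfinS G K i₀ B).Finite) ∧ ∃ C : ℝ, 0 < C ∧ ∀ B : ℝ, 3 ≤ B →
      ((CfinS G K i₀ B).ncard : ℝ) ≤ C * (B ^ (1 / (indG G : ℝ)) * Real.log B ^ (N - 1)) := by
  have : Finite P := Finite.of_surjective _ Q.prs
  obtain ⟨ha, -, hmin, -, hJ⟩ := pidx_pos hn G hG
  have hfac : {v : Pl K | ((n.factorial : ℕ) : 𝓞 K) ∈ v.asIdeal}.Finite :=
    finite_above (K := K) (Nat.factorial_ne_zero n)
  obtain ⟨D, hD0⟩ := H38.BB.exists_RD_of K hp hp2 hζ hfac.toFinset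
  have hD : ∀ v : Pl K, ((n.factorial : ℕ) : 𝓞 K) ∈ v.asIdeal → v ∈ D.S0 := fun v hv =>
    hD0 v (by
      rw [Set.Finite.mem_toFinset]
      exact hv)
  have hS : ∀ v : Pl K, ((Nat.card G : ℕ) : 𝓞 K) ∈ v.asIdeal → v ∈ D.S0 := fun v hv => by
    apply hD v
    obtain ⟨k, hk⟩ := esp_dvd G
    rw [hk]
    push_cast
    exact Ideal.mul_mem_right _ _ hv
  obtain ⟨Q'⟩ := exists_DP K QBar
  obtain ⟨L, hLQ⟩ := lds_of hp hζ D.toRD0 Q'
  obtain ⟨-, C, hC, hup⟩ := gux hp hζ hz2 D L hnil Q hP hU z hz hS (indG G) ha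
    (fun H => n - orbs (H.map G.subtype))
    (fun H hH => by
      have := hJ H hH
      omega)
    (fun g hg h => by
      refine (hI g).1 ⟨hg, le_antisymm ?_ (hmin g hg)⟩
      have h1 : (Subgroup.zpowers g).map G.subtype =
          Subgroup.zpowers (g : Equiv.Perm (Fin n)) := by
        rw [MonoidHom.map_zpowers]
        rfl
      rw [h1] at h
      exact h)
  have hF : ∀ B, 3 ≤ B → ∀ F : Finset (Gal(QBar/K) →* G), ↑F ⊆ CfinS G K i₀ B →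
      (F.card : ℝ) ≤ C * (B ^ (1 / (indG G : ℝ)) * Real.log B ^ (N - 1)) := by
    intro B hB F hF1
    refine hup B hB F fun φ hφ => ?_
    obtain ⟨h3, h4, h5⟩ := hF1 hφ
    exact ⟨h3, h4, fun T hT => (dsm_lo hn G hG K D.toRD0 L i₀ φ h4 h3 T hT).trans h5⟩
  have hfin : ∀ B, 3 ≤ B → (CfinS G K i₀ B).Finite := by
    intro B hB
    by_contra hinf
    obtain ⟨F, hF1, hF2⟩ := Set.Infinite.exists_subset_card_eq hinf
      (⌊C * (B ^ (1 / (indG G : ℝ)) * Real.log B ^ (N - 1))⌋₊ + 1)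
    have h2 := hF B hB F hF1
    rw [hF2] at h2
    push_cast at h2
    have h3 := Nat.lt_floor_add_one (C * (B ^ (1 / (indG G : ℝ)) * Real.log B ^ (N - 1)))
    linarith
  refine ⟨fun B => (hfin (max B 3) (le_max_right _ _)).subset fun φ hφ =>
      ⟨hφ.1, hφ.2.1, hφ.2.2.trans (le_max_left _ _)⟩, C, hC, fun B hB => ?_⟩
  rw [Set.ncard_eq_toFinset_card _ (hfin B hB)]
  exact hF B hB _ (by
    intro φ hφ
    exact (hfin B hB).mem_toFinset.1 hφ)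

end up

/-- the upper bound over one `K` -/
theorem upb3 (n : ℕ) (hn : 2 ≤ n) (G : Subgroup (Equiv.Perm (Fin n)))
    (hG : MulAction.IsPretransitive G (Fin n)) (hnil : Group.IsNilpotent G) (p : ℕ)
    (hp : p.Prime) (hL : ∀ h ∈ Li G, h ^ p = 1) (S : Sylow p G) (M : ℕ) (hM : 2 ≤ M)
    (hPL : ∀ (N : ℕ) (c : CL p N S) (_ : 1 ≤ N), PUb p M c)
    (K : IntermediateField ℚ (AlgebraicClosure ℚ)) [hKf : NumberField K]
    (hz : ∃ z : K, IsPrimitiveRoot z (Nat.card G)) (hz₂ : ∃ z : K, IsPrimitiveRoot z (p ^ M)) :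
    ∃ C : ℝ, 0 < C ∧ ∀ B : ℝ, 3 ≤ B → ∃ k : ℕ, Spec.nK K QBar G B = (k : ℕ∞) ∧
      (k : ℝ) ≤ C * (B ^ (1 / (Spec.indG G : ℝ)) *
        Real.log B ^ (Spec.betaAll K QBar G - 1)) := by
  have : NeZero p := ⟨hp.ne_zero⟩
  have : Fact p.Prime := ⟨hp⟩
  have hcardpos : 0 < Nat.card G := Nat.card_pos
  have hSn := nil_normal hnil hp S
  obtain ⟨hpd, hco, N, hN, Q, hIQ⟩ := frm n hn G hG hnil p hp hL S
  have hP : IsPGroup p S := S.isPGroup'
  have hU := hPL N Q.cP hN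
  obtain ⟨c₀, hc₀, hnk⟩ := nk2 G hG
  have i₀ : Fin n := ⟨0, by omega⟩
  obtain ⟨z, hz⟩ := hz
  obtain ⟨z₂, hz2⟩ := hz₂
  have hp2 : MOne p K := mone_of hp hM hz2
  obtain ⟨r, hr⟩ := hpd
  have hζ : IsPrimitiveRoot (z ^ r) p := hz.pow hcardpos (by rw [hr]; ring)
  obtain ⟨hfin, C, hC, hcl⟩ := fin_up G K hn hG hnil hp hp2 hζ hz2 Q hP hU hIQ z hz i₀
  have hβ := lbet G K z hz Q.cl.g Q.cl.uni hIQ
  refine ⟨C, hC, fun B hB => ?_⟩
  obtain ⟨k, hk1, hk2⟩ := hnk K hKf i₀ B (hfin B)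
  refine ⟨k, hk1, ?_⟩
  rw [hβ]
  refine le_trans ?_ (hcl B hB)
  have h1 : k ≤ (CfinS G K i₀ B).ncard := by
    rw [show (CfinS G K i₀ B).ncard = k * c₀ from hk2.symm]
    exact Nat.le_mul_of_pos_right _ hc₀
  exact_mod_cast h1

/-- the upper bound for every nilpotent group; `PUn p` for the order of the elements of least index only -/
theorem ubx3g (n : ℕ) (hn : 2 ≤ n)
    (G : Subgroup (Equiv.Perm (Fin n))) (hG : MulAction.IsPretransitive G (Fin n))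
    (hnil : Group.IsNilpotent G)
    (hPL : ∀ p : ℕ, p.Prime → (∃ h ∈ Li G, orderOf h = p) → PUn p) :
    ∃ m : ℕ, 0 < m ∧ ∀ K : IntermediateField ℚ (AlgebraicClosure ℚ), ∀ _ : NumberField K,
      (∃ z : K, IsPrimitiveRoot z m) → ∃ C : ℝ, 0 < C ∧ ∀ B : ℝ, 3 ≤ B →
        Spec.nK K (AlgebraicClosure ℚ) G B ≤
          ((⌊C * (B ^ (1 / (Spec.indG G : ℝ)) *
            Real.log B ^ (Spec.betaAll K (AlgebraicClosure ℚ) G - 1))⌋₊ : ℕ) : ℕ∞) := by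
  obtain ⟨-, ⟨g₀, hg₀, hg₀'⟩, -, -, -⟩ := H38.BG.pidx_pos hn G hG
  obtain ⟨p, hpd⟩ : ∃ p, p = orderOf g₀ := ⟨_, rfl⟩
  have hp : p.Prime := by
    rw [hpd]
    exact H38.ML.prime_of_least G g₀ hg₀ hg₀'
  have hL : ∀ h ∈ Li G, h ^ p = 1 := fun h hh => by
    rw [hpd, ← trg hn hG hnil h g₀ hh.1 hg₀ hh.2 hg₀']
    exact pow_orderOf_eq_one h
  have : Fact p.Prime := ⟨hp⟩
  have : NeZero p := ⟨hp.ne_zero⟩
  obtain ⟨S⟩ : Nonempty (Sylow p G) := inferInstance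
  obtain ⟨M, hM, hPLS⟩ := hPL p hp ⟨g₀, ⟨hg₀, hg₀'⟩, hpd.symm⟩ S S.isPGroup'
  have hcard : 0 < Nat.card G := Nat.card_pos
  have hm : 0 < Nat.card G * p ^ M := by
    have := hp.pos
    positivity
  refine ⟨Nat.card G * p ^ M, hm, fun K hK hz => ?_⟩
  obtain ⟨z, hz⟩ := hz
  have hz1 : ∃ z : K, IsPrimitiveRoot z (Nat.card G) := ⟨z ^ (p ^ M), hz.pow hm (by ring)⟩
  have hzM : ∃ z : K, IsPrimitiveRoot z (p ^ M) := ⟨z ^ (Nat.card G), hz.pow hm (by ring)⟩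
  obtain ⟨C, hC, h⟩ := upb3 n hn G hG hnil p hp hL S M hM hPLS K hz1 hzM
  refine ⟨C, hC, fun B hB => ?_⟩
  obtain ⟨k, hk, hk2⟩ := h B hB
  rw [show Spec.nK K (AlgebraicClosure ℚ) G B = (k : ℕ∞) from hk]
  exact Nat.cast_le.2 (Nat.le_floor hk2)

/-- the upper bound for every nilpotent group -/
theorem ubx3 (hPL : ∀ p : ℕ, p.Prime → PUn p) (n : ℕ) (hn : 2 ≤ n)
    (G : Subgroup (Equiv.Perm (Fin n))) (hG : MulAction.IsPretransitive G (Fin n))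
    (hnil : Group.IsNilpotent G) :
    ∃ m : ℕ, 0 < m ∧ ∀ K : IntermediateField ℚ (AlgebraicClosure ℚ), ∀ _ : NumberField K,
      (∃ z : K, IsPrimitiveRoot z m) → ∃ C : ℝ, 0 < C ∧ ∀ B : ℝ, 3 ≤ B →
        Spec.nK K (AlgebraicClosure ℚ) G B ≤
          ((⌊C * (B ^ (1 / (Spec.indG G : ℝ)) *
            Real.log B ^ (Spec.betaAll K (AlgebraicClosure ℚ) G - 1))⌋₊ : ℕ) : ℕ∞) :=
  ubx3g n hn G hG hnil fun p hp _ => hPL p hp

end H51.F3
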