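import Pool.Agent.H51.F3.Defs
import Pool.Agent.H51.AC2.Fin

/-!
# H51-F3-PL: the P-level theorems from the chapters

* `plv3`: `PLn p` from `APst3 p`, `BL2 p`, `GP2 p`. `pun3`: `PUn p` from `APu3 p`, `BL2 p`, `GP2 p`.
-/

set_option autoImplicit false

open scoped NumberField
open IsDedekindDomain Filter Topology
open scoped Classical

noncomputable section

namespace H51.F3

open H38.ML H63.MA H38.BB H38.BG H57.PC H57.BRA H57.CC H38.AS H77.WD H77.WE H77.PC3 H77.S0T H77.FLD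
  H77.PLF H35.UB H35.AC H51.PF H51.AC2 H24.RK

theorem pun3 {p : ℕ} (hp : p.Prime) (hA : APu3 p) (hB : BL2 p) (hG : GP2 p) : PUn p := by
  intro P _ _ hPg
  haveI : NeZero p := ⟨hp.ne_zero⟩
  haveI : Fintype P := Fintype.ofFinite P
  haveI : Fact p.Prime := ⟨hp⟩
  obtain ⟨n, hAn⟩ := hA P hPg
  obtain ⟨κ, hκ⟩ : ∃ κ : ℕ, ∀ x : P, x ^ (p ^ κ) = 1 := by
    obtain ⟨κ, hκ⟩ := IsPGroup.iff_card.1 hPg
    exact ⟨κ, fun x => by rw [← hκ]; exact pow_card_eq_one'⟩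
  obtain ⟨MB, hMB⟩ := hB κ (Nat.card P)
  obtain ⟨MG, hMG⟩ := hG κ
  refine ⟨n + MB + MG + 2, by omega, fun N c hN => ?_⟩
  intro K _ ζ hζ z hz D L η hη
  obtain ⟨zA, hzA⟩ := prm_pow hp hz (show n + 1 ≤ n + MB + MG + 2 by omega)
  obtain ⟨zB, hzB⟩ := prm_pow hp hz (show MB ≤ n + MB + MG + 2 by omega)
  obtain ⟨zG, hzG⟩ := prm_pow hp hz (show MG ≤ n + MB + MG + 2 by omega)
  obtain ⟨z', hz', hz2⟩ := zn_norm hp hζ hzA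
  have h1 := ubf hp hζ D.toRD0 κ hκ (hMG K ζ hζ zG hzG D) (fun A => hMB K ζ hζ zB hzB D A) c
  have h4 := hAn N c hN K ζ hζ z' hz' hz2 D
  obtain ⟨L', hL', hLL⟩ := nl_exists (Ω := QBar) hp hz' hζ hz2 L
  have hLP : ∀ v hv, (L'.ld v hv).P = (L.ld v hv).P := fun v hv => (hLL v hv).1
  obtain ⟨C, hC, h5⟩ := pl_ubT hp hζ hPg hN c h1 h4 L' hL' η hη
  refine ⟨C, hC, fun E Y hY Rs hRs => h5 E Y hY Rs fun ψ hψ => ?_⟩
  rw [trn_pu hp hζ hLP c E Y]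
  exact hRs ψ hψ

theorem plv3 {p : ℕ} (hp : p.Prime) (hA : APst3 p) (hB : BL2 p) (hG : GP2 p) : PLn p := by
  intro P _ _ hPg
  haveI : NeZero p := ⟨hp.ne_zero⟩
  haveI : Fintype P := Fintype.ofFinite P
  haveI : Fact p.Prime := ⟨hp⟩
  obtain ⟨n, hAn⟩ := hA P hPg
  obtain ⟨κ, hκ⟩ : ∃ κ : ℕ, ∀ x : P, x ^ (p ^ κ) = 1 := by
    obtain ⟨κ, hκ⟩ := IsPGroup.iff_card.1 hPg
    exact ⟨κ, fun x => by rw [← hκ]; exact pow_card_eq_one'⟩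
  obtain ⟨MB, hMB⟩ := hB κ (Nat.card P)
  obtain ⟨MG, hMG⟩ := hG κ
  refine ⟨n + MB + MG + 2, by omega, fun N c hN => ?_⟩
  have key : ∀ (K : IntermediateField ℚ QBar) [NumberField K] (ζ : K) (_ : IsPrimitiveRoot ζ p)
      (z : K) (_ : IsPrimitiveRoot z (p ^ (n + MB + MG + 2))) (D : RD K p ζ),
      UBK D.toRD0 c ∧ ∃ z' : K, IsPrimitiveRoot z' (p ^ (n + 1)) ∧ z' ^ p ^ n = ζ ∧
        APlT D.toRD0 c (Tc c) (n + 1) z' ∧ APpT D.toRD0 c (Tc c) (n + 1) z' ∧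
        APuT D.toRD0 c (n + 1) z' := by
    intro K _ ζ hζ z hz D
    obtain ⟨zA, hzA⟩ := prm_pow hp hz (show n + 1 ≤ n + MB + MG + 2 by omega)
    obtain ⟨zB, hzB⟩ := prm_pow hp hz (show MB ≤ n + MB + MG + 2 by omega)
    obtain ⟨zG, hzG⟩ := prm_pow hp hz (show MG ≤ n + MB + MG + 2 by omega)
    obtain ⟨z', hz', hz2⟩ := zn_norm hp hζ hzA
    refine ⟨ubf hp hζ D.toRD0 κ hκ (hMG K ζ hζ zG hzG D) (fun A => hMB K ζ hζ zB hzB D A) c,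
      z', hz', hz2, hAn N c hN K ζ hζ z' hz' hz2 D⟩
  refine ⟨?_, ?_, ?_⟩
  · intro K _ ζ hζ z hz D L Q hLQ φ₁ hφ
    obtain ⟨h1, z', hz', hz2, h2, -, -⟩ := key K ζ hζ z hz D
    obtain ⟨L', hL', hLL⟩ := nl_exists (Ω := QBar) hp hz' hζ hz2 L
    have hLP : ∀ v hv, (L'.ld v hv).P = (L.ld v hv).P := fun v hv => (hLL v hv).1
    obtain ⟨l, hl⟩ := pl_limT hp hζ hPg hN c (Tc c) h1 h2 L' hL' Q (trn_lq hLP hLQ) φ₁ hφ
    refine ⟨l, hl.congr fun Y => ?_⟩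
    rw [trn_syt hp hζ hLP Q c (Tc c) φ₁ Y]
  · intro K _ ζ hζ z hz D L η hη
    obtain ⟨h1, z', hz', hz2, -, -, h4⟩ := key K ζ hζ z hz D
    obtain ⟨L', hL', hLL⟩ := nl_exists (Ω := QBar) hp hz' hζ hz2 L
    have hLP : ∀ v hv, (L'.ld v hv).P = (L.ld v hv).P := fun v hv => (hLL v hv).1
    obtain ⟨C, hC, h5⟩ := pl_ubT hp hζ hPg hN c h1 h4 L' hL' η hη
    refine ⟨C, hC, fun E Y hY Rs hRs => h5 E Y hY Rs fun ψ hψ => ?_⟩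
    rw [trn_pu hp hζ hLP c E Y]
    exact hRs ψ hψ
  · intro K _ ζ hζ z hz D L φ₀ h₀ hs hun
    obtain ⟨-, z', hz', hz2, -, h3, -⟩ := key K ζ hζ z hz D
    obtain ⟨L', hL', hLL⟩ := nl_exists (Ω := QBar) hp hz' hζ hz2 L
    have hLP : ∀ v hv, (L'.ld v hv).P = (L.ld v hv).P := fun v hv => (hLL v hv).1
    obtain ⟨C, X₀, hC, hX₀, h5⟩ := pl_posT hp hζ hPg c (Tc c) h3 L' hL' φ₀ h₀ hs
      (fun v hv τ hτ => hun v hv τ (by rw [← trn_in hLP v hv]; exact hτ))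
    refine ⟨C, X₀, hC, hX₀, fun X hX => ?_⟩
    obtain ⟨Rs, h6, h7⟩ := h5 X hX
    refine ⟨Rs, h6, fun φ hφ => ?_⟩
    obtain ⟨g1, g2, T', g3, g4, g5, g6⟩ := h7 φ hφ
    refine ⟨g1, g2, T', g3, g4, fun v hv => ?_, fun v hv hv' τ hτ => ?_⟩
    · obtain ⟨i, h, g7, g8⟩ := g5 v hv
      exact ⟨i, h, g7, fun τ hτ => g8 τ (by rw [trn_in hLP v (g3 v hv)]; exact hτ)⟩
    · exact g6 v hv hv' τ (by rw [trn_in hLP v hv]; exact hτ)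

theorem plv3k {p k : ℕ} (hp : p.Prime) (hA : APst3k p k) (hB : BL2 p) (hG : GP2 p) : PLnk p k := by
  intro P _ _ hPg
  haveI : NeZero p := ⟨hp.ne_zero⟩
  haveI : Fintype P := Fintype.ofFinite P
  haveI : Fact p.Prime := ⟨hp⟩
  obtain ⟨n, hAn⟩ := hA P hPg
  obtain ⟨κ, hκ⟩ : ∃ κ : ℕ, ∀ x : P, x ^ (p ^ κ) = 1 := by
    obtain ⟨κ, hκ⟩ := IsPGroup.iff_card.1 hPg
    exact ⟨κ, fun x => by rw [← hκ]; exact pow_card_eq_one'⟩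
  obtain ⟨MB, hMB⟩ := hB κ (Nat.card P)
  obtain ⟨MG, hMG⟩ := hG κ
  refine ⟨n + MB + MG + 2, by omega, fun N c hN hk => ?_⟩
  have key : ∀ (K : IntermediateField ℚ QBar) [NumberField K] (ζ : K) (_ : IsPrimitiveRoot ζ p)
      (z : K) (_ : IsPrimitiveRoot z (p ^ (n + MB + MG + 2))) (D : RD K p ζ),
      UBK D.toRD0 c ∧ ∃ z' : K, IsPrimitiveRoot z' (p ^ (n + 1)) ∧ z' ^ p ^ n = ζ ∧
        APlT D.toRD0 c (Tc c) (n + 1) z' ∧ APpT D.toRD0 c (Tc c) (n + 1) z' ∧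
        APuT D.toRD0 c (n + 1) z' := by
    intro K _ ζ hζ z hz D
    obtain ⟨zA, hzA⟩ := prm_pow hp hz (show n + 1 ≤ n + MB + MG + 2 by omega)
    obtain ⟨zB, hzB⟩ := prm_pow hp hz (show MB ≤ n + MB + MG + 2 by omega)
    obtain ⟨zG, hzG⟩ := prm_pow hp hz (show MG ≤ n + MB + MG + 2 by omega)
    obtain ⟨z', hz', hz2⟩ := zn_norm hp hζ hzA
    refine ⟨ubf hp hζ D.toRD0 κ hκ (hMG K ζ hζ zG hzG D) (fun A => hMB K ζ hζ zB hzB D A) c,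
      z', hz', hz2, hAn N c hN hk K ζ hζ z' hz' hz2 D⟩
  refine ⟨?_, ?_, ?_⟩
  · intro K _ ζ hζ z hz D L Q hLQ φ₁ hφ
    obtain ⟨h1, z', hz', hz2, h2, -, -⟩ := key K ζ hζ z hz D
    obtain ⟨L', hL', hLL⟩ := nl_exists (Ω := QBar) hp hz' hζ hz2 L
    have hLP : ∀ v hv, (L'.ld v hv).P = (L.ld v hv).P := fun v hv => (hLL v hv).1
    obtain ⟨l, hl⟩ := pl_limT hp hζ hPg hN c (Tc c) h1 h2 L' hL' Q (trn_lq hLP hLQ) φ₁ hφ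
    refine ⟨l, hl.congr fun Y => ?_⟩
    rw [trn_syt hp hζ hLP Q c (Tc c) φ₁ Y]
  · intro K _ ζ hζ z hz D L η hη
    obtain ⟨h1, z', hz', hz2, -, -, h4⟩ := key K ζ hζ z hz D
    obtain ⟨L', hL', hLL⟩ := nl_exists (Ω := QBar) hp hz' hζ hz2 L
    have hLP : ∀ v hv, (L'.ld v hv).P = (L.ld v hv).P := fun v hv => (hLL v hv).1
    obtain ⟨C, hC, h5⟩ := pl_ubT hp hζ hPg hN c h1 h4 L' hL' η hη
    refine ⟨C, hC, fun E Y hY Rs hRs => h5 E Y hY Rs fun ψ hψ => ?_⟩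
    rw [trn_pu hp hζ hLP c E Y]
    exact hRs ψ hψ
  · intro K _ ζ hζ z hz D L φ₀ h₀ hs hun
    obtain ⟨-, z', hz', hz2, -, h3, -⟩ := key K ζ hζ z hz D
    obtain ⟨L', hL', hLL⟩ := nl_exists (Ω := QBar) hp hz' hζ hz2 L
    have hLP : ∀ v hv, (L'.ld v hv).P = (L.ld v hv).P := fun v hv => (hLL v hv).1
    obtain ⟨C, X₀, hC, hX₀, h5⟩ := pl_posT hp hζ hPg c (Tc c) h3 L' hL' φ₀ h₀ hs
      (fun v hv τ hτ => hun v hv τ (by rw [← trn_in hLP v hv]; exact hτ))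
    refine ⟨C, X₀, hC, hX₀, fun X hX => ?_⟩
    obtain ⟨Rs, h6, h7⟩ := h5 X hX
    refine ⟨Rs, h6, fun φ hφ => ?_⟩
    obtain ⟨g1, g2, T', g3, g4, g5, g6⟩ := h7 φ hφ
    refine ⟨g1, g2, T', g3, g4, fun v hv => ?_, fun v hv hv' τ hτ => ?_⟩
    · obtain ⟨i, h, g7, g8⟩ := g5 v hv
      exact ⟨i, h, g7, fun τ hτ => g8 τ (by rw [trn_in hLP v (g3 v hv)]; exact hτ)⟩
    · exact g6 v hv hv' τ (by rw [trn_in hLP v hv]; exact hτ)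

theorem pun_of_pln {p : ℕ} (h : PLn p) : PUn p := by
  intro P _ _ hPg
  obtain ⟨M, hM, h1⟩ := h P hPg
  exact ⟨M, hM, fun N c hN => (h1 N c hN).2.1⟩

end H51.F3
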