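import Pool.Agent.H12.S3.Defs
import Pool.Agent.H51.F3.Pl
import Pool.Agent.H51.F3.Fld
import Pool.Agent.H35.NS2.Fin

/-!
# H51-F3-PM: stage 3, from the end of chapter D (`LmT`, `PsT`) and UBX to the final theorem (MP_b39724_nt)

* `APm3 p`: the end of chapter D: `LmT`, `PsT` for all `p`-groups and all classes with `C4 c`. `PLc p`: the P-level theorem for all `c` with `C4 c`.
* `pl_pos3`: (P) from `PsT`. `plc3`: `PLc p` from `APm3 p`, `APu3 p`, `BL2 p`, `GP2 p`.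
* `fin3c`, `malle_fin`: the final theorem: no element of least index has order `2`, or the group `T` generated by the elements of least index has class at most `3`, or one of
  the conditions `H51.NS.Cond` of NilpotentFullSeries.
-/

set_option autoImplicit false

open scoped NumberField
open IsDedekindDomain Filter Topology
open scoped Classical

noncomputable section

namespace H51.F3

open H38.ML H63.MA H38.BB H38.BG H57.PC H57.BRA H57.CC H38.AS H77.WD H77.WE H77.PC3 H77.S0T H77.FLD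
  H77.PLF H35.UB H35.AC H51.PF H51.AC2 H24.RK H12.S3

/-- the end of chapter D, for all `p`-groups -/
def APm3 (p : ℕ) : Prop :=
  ∀ (P : Type) [Group P] [Finite P] (_ : IsPGroup p P), ∃ n : ℕ,
    ∀ (N : ℕ) (c : CL p N P) (_ : 1 ≤ N) (_ : C4 c)
      (K : IntermediateField ℚ QBar) [NumberField K] (ζ : K) (_ : IsPrimitiveRoot ζ p) (z : K)
      (_ : IsPrimitiveRoot z (p ^ (n + 1))) (_ : z ^ p ^ n = ζ) (D : RD K p ζ),
      LmT D.toRD0 c (n + 1) z ∧ PsT D.toRD0 c (n + 1) z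

/-- the P-level theorem of stage 3, with the condition for `p = 2` -/
def PLc (p : ℕ) : Prop :=
  ∀ (P : Type) [Group P] [Finite P] (_ : IsPGroup p P),
    ∃ M : ℕ, 2 ≤ M ∧ ∀ (N : ℕ) (c : CL p N P) (_ : 1 ≤ N) (_ : C4 c),
      PLimT p M c (Tc c) ∧ PUb p M c ∧ PPos2 p M c

section one

variable {K : IntermediateField ℚ QBar} [NumberField K] {p N : ℕ} {ζ : K} {D : RD0 K p ζ}
  {P : Type} [Group P] [Finite P]

/-- (P), from `PsT` -/
theorem pl_pos3 (hp : p.Prime) (hζ : IsPrimitiveRoot ζ p) (hP : IsPGroup p P) (c : CL p N P)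
    {n : ℕ} {z : K} (hA : PsT D c n z) (L : LDs D QBar) (hL : NL n z L)
    (φ₀ : Gal(QBar/K) →* P) (h₀ : FT φ₀) (hs : Function.Surjective φ₀)
    (hun : ∀ v, v ∉ D.S0 → ∀ τ ∈ inr L v, φ₀ τ = 1) : LBd L c.g := by
  obtain ⟨Q, hLQ⟩ := dp_of L
  obtain ⟨c₀, hc₀, hev⟩ := hA L hL Q hLQ φ₀ h₀ hs hun
  obtain ⟨_, _, -, -, htr⟩ := trv hp hζ hP L c
  obtain ⟨X₁, hX₁⟩ := eventually_atTop.1 hev
  refine ⟨c₀, max X₁ 3, hc₀, le_max_right _ _, fun X hX => ?_⟩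
  have hX3 : 3 ≤ X := (le_max_right _ _).trans hX
  have hsub := syt_sub L Q c (Tc c) φ₀ X
  have hfin : (SYT L Q c (Tc c) φ₀ X).Finite :=
    (htr ∅ X (by linarith)).1.subset fun φ hφ => hsub hφ
  refine ⟨hfin.toFinset, ?_, fun φ hφ => ?_⟩
  · have h1 := hX₁ X ((le_max_left _ _).trans hX)
    rw [Set.ncard_eq_toFinset_card _ hfin] at h1
    rw [mul_assoc]
    exact h1
  · rw [Set.Finite.mem_toFinset] at hφ
    have h1 := hsub hφ
    have hI : ∀ v, ∀ τ ∈ inr L v, ∃ k : ℕ, φ τ ^ (p ^ k) = 1 := fun v τ _ => hP (φ τ)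
    refine ⟨h1.1, h1.2.1, nfs L ∅ φ, fun v hv => ((mem_nfs h1 v).1 hv).1, ?_, fun v hv => ?_,
      fun v hv hv2 => ?_⟩
    · have h2 := nfs_AF h1
      rw [mem_AF] at h2
      exact h2
    · obtain ⟨h2, h3, h4⟩ := (mem_nfs h1 v).1 hv
      rcases h1.2.2.1 v h2 h3 with h5 | ⟨i, hi⟩
      · exact absurd (h5 _ (lt_mem L h2)) h4
      · exact ⟨i, φ (L.t v), hi.2.1, (H48.MF.ing_inr hp hζ L h2 φ h1.1 (hI v)).1⟩
    · have h2 : φ (L.t v) = 1 := by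
        by_contra h3
        exact hv2 ((mem_nfs h1 v).2 ⟨hv, Finset.notMem_empty v, h3⟩)
      exact (H48.MF.ing_inr hp hζ L hv φ h1.1 (hI v)).2.2 h2

end one

theorem plc3 {p : ℕ} (hp : p.Prime) (hA : APm3 p) (hU : APu3 p) (hB : BL2 p) (hG : GP2 p) :
    PLc p := by
  intro P _ _ hPg
  have : NeZero p := ⟨hp.ne_zero⟩
  have : Fact p.Prime := ⟨hp⟩
  obtain ⟨n, hAn⟩ := hA P hPg
  obtain ⟨M, hM, hPU⟩ := pun3 hp hU hB hG P hPg
  refine ⟨n + M + 1, by omega, fun N c hN hC => ?_⟩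
  have key : ∀ (K : IntermediateField ℚ QBar) [NumberField K] (ζ : K) (_ : IsPrimitiveRoot ζ p)
      (z : K) (_ : IsPrimitiveRoot z (p ^ (n + M + 1))) (D : RD K p ζ),
      ∃ z' : K, IsPrimitiveRoot z' (p ^ (n + 1)) ∧ z' ^ p ^ n = ζ ∧
        LmT D.toRD0 c (n + 1) z' ∧ PsT D.toRD0 c (n + 1) z' := by
    intro K _ ζ hζ z hz D
    obtain ⟨zA, hzA⟩ := H51.AC2.prm_pow hp hz (show n + 1 ≤ n + M + 1 by omega)
    obtain ⟨z', hz', hz2⟩ := zn_norm hp hζ hzA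
    exact ⟨z', hz', hz2, hAn N c hN hC K ζ hζ z' hz' hz2 D⟩
  refine ⟨?_, ?_, ?_⟩
  · intro K _ ζ hζ z hz D L Q hLQ φ₁ hφ
    obtain ⟨z', hz', hz2, h2, -⟩ := key K ζ hζ z hz D
    obtain ⟨L', hL', hLL⟩ := nl_exists (Ω := QBar) hp hz' hζ hz2 L
    have hLP : ∀ v hv, (L'.ld v hv).P = (L.ld v hv).P := fun v hv => (hLL v hv).1
    obtain ⟨l, hl⟩ := h2 L' hL' Q (trn_lq hLP hLQ) φ₁ hφ
    refine ⟨l, hl.congr fun Y => ?_⟩
    rw [trn_syt hp hζ hLP Q c (Tc c) φ₁ Y]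
  · intro K _ ζ hζ z hz D L η hη
    obtain ⟨zM, hzM⟩ := H51.AC2.prm_pow hp hz (show M ≤ n + M + 1 by omega)
    exact hPU N c hN K ζ hζ zM hzM D L η hη
  · intro K _ ζ hζ z hz D L φ₀ h₀ hs hun
    obtain ⟨z', hz', hz2, -, h3⟩ := key K ζ hζ z hz D
    obtain ⟨L', hL', hLL⟩ := nl_exists (Ω := QBar) hp hz' hζ hz2 L
    have hLP : ∀ v hv, (L'.ld v hv).P = (L.ld v hv).P := fun v hv => (hLL v hv).1
    obtain ⟨C, X₀, hC, hX₀, h5⟩ := pl_pos3 hp hζ hPg c h3 L' hL' φ₀ h₀ hs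
      (fun v hv τ hτ => hun v hv τ (by rw [← trn_in hLP v hv]; exact hτ))
    refine ⟨C, X₀, hC, hX₀, fun X hX => ?_⟩
    obtain ⟨Rs, h6, h7⟩ := h5 X hX
    refine ⟨Rs, h6, fun φ hφ => ?_⟩
    obtain ⟨g1, g2, T', g3, g4, g5, g6⟩ := h7 φ hφ
    refine ⟨g1, g2, T', g3, g4, fun v hv => ?_, fun v hv hv' τ hτ => ?_⟩
    · obtain ⟨i, h, g7, g8⟩ := g5 v hv
      exact ⟨i, h, g7, fun τ hτ => g8 τ (by rw [trn_in hLP v (g3 v hv)]; exact hτ)⟩
    · exact g6 v hv hv' τ (by rw [trn_in hLP v hv]; exact hτ)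

/-- the final theorem from the P-level theorem -/
theorem fin3c (hPL : ∀ p : ℕ, p.Prime → PLc p) (n : ℕ) (hn : 2 ≤ n)
    (G : Subgroup (Equiv.Perm (Fin n))) (hG : MulAction.IsPretransitive G (Fin n))
    (hnil : Group.IsNilpotent G)
    (hT : (∀ h : G, h ≠ 1 → Spec.ind (h : Equiv.Perm (Fin n)) = Spec.indG G → orderOf h ≠ 2) ∨
      (Subgroup.closure {h : G | h ≠ 1 ∧ Spec.ind (h : Equiv.Perm (Fin n)) =
        Spec.indG G}).lowerCentralSeries 3 = ⊥) :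
    ∃ m : ℕ, 0 < m ∧ ∃ K₀ : IntermediateField ℚ (AlgebraicClosure ℚ), NumberField K₀ ∧
      ∀ K : IntermediateField ℚ (AlgebraicClosure ℚ), ∀ _ : NumberField K,
      (∃ z : K, IsPrimitiveRoot z m) →
        (K₀ ≤ K ∨ Spec.IsGaloisGroup K (AlgebraicClosure ℚ) G) →
          (∀ B : ℝ, Spec.nK K (AlgebraicClosure ℚ) G B ≠ ⊤) ∧
          ∃ C : ℝ, 0 < C ∧ Filter.Tendsto
            (fun B : ℝ => ((Spec.nK K (AlgebraicClosure ℚ) G B).toNat : ℝ) /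
              (B ^ (1 / (Spec.indG G : ℝ)) *
                Real.log B ^ (Spec.betaAll K (AlgebraicClosure ℚ) G - 1)))
            Filter.atTop (nhds C) :=
  fin3q n hn G hG hnil fun p hp hh S => by
    have : Fact p.Prime := ⟨hp⟩
    obtain ⟨M, hM, h⟩ := hPL p hp S S.isPGroup'
    refine ⟨M, hM, fun _ N Q hN hQ => h N Q.cP hN ?_⟩
    rcases hT with hT | hT
    · obtain ⟨g, hg, ho⟩ := hh
      exact Or.inl fun h0 => hT g hg.1 hg.2 (ho.trans h0)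
    · refine Or.inr ?_
      have h1 : (Subgroup.closure {h : G | h ≠ 1 ∧ ind (h : Equiv.Perm (Fin n)) =
        indG G}).lowerCentralSeries 3 = ⊥ := hT
      rw [tc_map Q hQ, ← Subgroup.map_lowerCentralSeries, h1, Subgroup.map_bot]

/-- THE FINAL THEOREM OF STAGE 3 -/
theorem malle_fin (hA : ∀ p : ℕ, p.Prime → APm3 p) (hU : ∀ p : ℕ, p.Prime → APu3 p) (n : ℕ)
    (hn : 2 ≤ n) (G : Subgroup (Equiv.Perm (Fin n))) (hG : MulAction.IsPretransitive G (Fin n))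
    (hnil : Group.IsNilpotent G)
    (hT : (∀ h : G, h ≠ 1 → Spec.ind (h : Equiv.Perm (Fin n)) = Spec.indG G → orderOf h ≠ 2) ∨
      (Subgroup.closure {h : G | h ≠ 1 ∧ Spec.ind (h : Equiv.Perm (Fin n)) =
        Spec.indG G}).lowerCentralSeries 3 = ⊥ ∨ H51.NS.Cond G) :
    ∃ m : ℕ, 0 < m ∧ ∃ K₀ : IntermediateField ℚ (AlgebraicClosure ℚ), NumberField K₀ ∧
      ∀ K : IntermediateField ℚ (AlgebraicClosure ℚ), ∀ _ : NumberField K,
      (∃ z : K, IsPrimitiveRoot z m) →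
        (K₀ ≤ K ∨ Spec.IsGaloisGroup K (AlgebraicClosure ℚ) G) →
          (∀ B : ℝ, Spec.nK K (AlgebraicClosure ℚ) G B ≠ ⊤) ∧
          ∃ C : ℝ, 0 < C ∧ Filter.Tendsto
            (fun B : ℝ => ((Spec.nK K (AlgebraicClosure ℚ) G B).toNat : ℝ) /
              (B ^ (1 / (Spec.indG G : ℝ)) *
                Real.log B ^ (Spec.betaAll K (AlgebraicClosure ℚ) G - 1)))
            Filter.atTop (nhds C) :=
  by
    rcases hT with hT | hT | hT
    · exact fin3c (fun _ hp => plc3 hp (hA _ hp) (hU _ hp) (H35.NS2.bl2_all hp)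
        (H35.NS2.gp2_all hp)) n hn G hG hnil (Or.inl hT)
    · exact fin3c (fun _ hp => plc3 hp (hA _ hp) (hU _ hp) (H35.NS2.bl2_all hp)
        (H35.NS2.gp2_all hp)) n hn G hG hnil (Or.inr hT)
    · exact H35.NS2.nfs_all n hn G hG hnil hT

end H51.F3
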