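import Pool.Agent.H51.AC2.Defs

/-!
# H51-F3: the statements of stage 3 and of the upper bound UBX (MP_b39724_nt, all classes, every `T`)

As H51/AC2/Defs.lean and H51/PF/Tyt.lean, without full series: `T` is the normal closure of the representatives `c.g i` (notation `Tc c`).
* `APst3 p`, `APu3 p`: the targets of the chapters (asymptotic formula, positivity, uniform upper bound; only the uniform upper bound).
* `PLn p`, `PUn p`: the P-level theorems. `APst3k p k`, `PLnk p k`: `T` of class at most `k`.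
-/

set_option autoImplicit false

open scoped NumberField
open IsDedekindDomain Filter Topology
open scoped Classical

noncomputable section

namespace H51.F3

open H38.ML H63.MA H38.BB H38.BG H57.PC H57.BRA H38.AS H77.WD H77.PC3 H77.S0T H77.FLD H77.PLF H35.CF
  H35.UB H35.AC H51.PF H51.AC2 H24.RK

/-- the normal subgroup generated by the representatives -/
abbrev Tc {p N : ℕ} {P : Type} [Group P] (c : CL p N P) : Subgroup P :=
  Subgroup.normalClosure (Set.range c.g)

/-- stage 3: the three statements for all `p`-groups -/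
def APst3 (p : ℕ) : Prop :=
  ∀ (P : Type) [Group P] [Finite P] (_ : IsPGroup p P), ∃ n : ℕ,
    ∀ (N : ℕ) (c : CL p N P) (_ : 1 ≤ N)
      (K : IntermediateField ℚ QBar) [NumberField K] (ζ : K) (_ : IsPrimitiveRoot ζ p) (z : K)
      (_ : IsPrimitiveRoot z (p ^ (n + 1))) (_ : z ^ p ^ n = ζ) (D : RD K p ζ),
      APlT D.toRD0 c (Tc c) (n + 1) z ∧ APpT D.toRD0 c (Tc c) (n + 1) z ∧
        APuT D.toRD0 c (n + 1) z

/-- UBX: the uniform upper bound for all `p`-groups -/
def APu3 (p : ℕ) : Prop :=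
  ∀ (P : Type) [Group P] [Finite P] (_ : IsPGroup p P), ∃ n : ℕ,
    ∀ (N : ℕ) (c : CL p N P) (_ : 1 ≤ N)
      (K : IntermediateField ℚ QBar) [NumberField K] (ζ : K) (_ : IsPrimitiveRoot ζ p) (z : K)
      (_ : IsPrimitiveRoot z (p ^ (n + 1))) (_ : z ^ p ^ n = ζ) (D : RD K p ζ),
      APuT D.toRD0 c (n + 1) z

/-- the P-level theorem of stage 3 -/
def PLn (p : ℕ) : Prop :=
  ∀ (P : Type) [Group P] [Finite P] (_ : IsPGroup p P),
    ∃ M : ℕ, 2 ≤ M ∧ ∀ (N : ℕ) (c : CL p N P) (_ : 1 ≤ N),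
      PLimT p M c (Tc c) ∧ PUb p M c ∧ PPos2 p M c

/-- stage 3 for all `p`-groups and classes whose normal closure has class at most `k` -/
def APst3k (p k : ℕ) : Prop :=
  ∀ (P : Type) [Group P] [Finite P] (_ : IsPGroup p P), ∃ n : ℕ,
    ∀ (N : ℕ) (c : CL p N P) (_ : 1 ≤ N) (_ : (Tc c).lowerCentralSeries k = ⊥)
      (K : IntermediateField ℚ QBar) [NumberField K] (ζ : K) (_ : IsPrimitiveRoot ζ p) (z : K)
      (_ : IsPrimitiveRoot z (p ^ (n + 1))) (_ : z ^ p ^ n = ζ) (D : RD K p ζ),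
      APlT D.toRD0 c (Tc c) (n + 1) z ∧ APpT D.toRD0 c (Tc c) (n + 1) z ∧
        APuT D.toRD0 c (n + 1) z

/-- the P-level theorem of stage 3, class at most `k` -/
def PLnk (p k : ℕ) : Prop :=
  ∀ (P : Type) [Group P] [Finite P] (_ : IsPGroup p P),
    ∃ M : ℕ, 2 ≤ M ∧ ∀ (N : ℕ) (c : CL p N P) (_ : 1 ≤ N) (_ : (Tc c).lowerCentralSeries k = ⊥),
      PLimT p M c (Tc c) ∧ PUb p M c ∧ PPos2 p M c

/-- the P-level theorem of UBX -/
def PUn (p : ℕ) : Prop :=
  ∀ (P : Type) [Group P] [Finite P] (_ : IsPGroup p P),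
    ∃ M : ℕ, 2 ≤ M ∧ ∀ (N : ℕ) (c : CL p N P) (_ : 1 ≤ N), PUb p M c

end H51.F3
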