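import Pool.Agent.H51.F3.Pl
import Pool.Agent.H51.F3.Fld
import Pool.Agent.H35.NS2.Fin

/-!
# H51-F3-FIN: the final theorems of stage 3 and of UBX, from `APst3 p` and `APu3 p` (MP_b39724_nt)

* `malle_nil`: the asymptotic formula for every nilpotent transitive group, from `APst3 p` for all primes.
* `malle_ub`: the upper bound of the conjectured order for every nilpotent transitive group, from `APu3 p` for all primes.
-/

set_option autoImplicit false

open scoped Classical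
open H38.ML H51.PF H51.AC2

noncomputable section

namespace H51.F3

theorem malle_nil (hA : ∀ p : ℕ, p.Prime → APst3 p) (n : ℕ) (hn : 2 ≤ n)
    (G : Subgroup (Equiv.Perm (Fin n))) (hG : MulAction.IsPretransitive G (Fin n))
    (hnil : Group.IsNilpotent G) :
    ∃ m : ℕ, 0 < m ∧ ∃ K₀ : IntermediateField ℚ (AlgebraicClosure ℚ), NumberField K₀ ∧
      ∀ K : IntermediateField ℚ (AlgebraicClosure ℚ), ∀ _ : NumberField K,
      (∃ z : K, IsPrimitiveRoot z m) →
        (K₀ ≤ K ∨ Spec.IsGaloisGroup K (AlgebraicClosure ℚ) G) →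
          (∀ B : ℝ, Spec.nK K (AlgebraicClosure ℚ) G B ≠ ⊤) ∧
          ∃ C : ℝ, 0 < C ∧ Filter.Tendsto
            (fun B : ℝ => ((Spec.nK K (AlgebraicClosure ℚ) G B).toNat : ℝ) /
              (B ^ (1 / (Spec.indG G : ℝ)) *
                Real.log B ^ (Spec.betaAll K (AlgebraicClosure ℚ) G - 1)))
            Filter.atTop (nhds C) :=
  fin3 (fun _ hp => plv3 hp (hA _ hp) (H35.NS2.bl2_all hp) (H35.NS2.gp2_all hp)) n hn G hG hnil

theorem malle_ub (hA : ∀ p : ℕ, p.Prime → APu3 p) (n : ℕ) (hn : 2 ≤ n)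
    (G : Subgroup (Equiv.Perm (Fin n))) (hG : MulAction.IsPretransitive G (Fin n))
    (hnil : Group.IsNilpotent G) :
    ∃ m : ℕ, 0 < m ∧ ∀ K : IntermediateField ℚ (AlgebraicClosure ℚ), ∀ _ : NumberField K,
      (∃ z : K, IsPrimitiveRoot z m) → ∃ C : ℝ, 0 < C ∧ ∀ B : ℝ, 3 ≤ B →
        Spec.nK K (AlgebraicClosure ℚ) G B ≤
          ((⌊C * (B ^ (1 / (Spec.indG G : ℝ)) *
            Real.log B ^ (Spec.betaAll K (AlgebraicClosure ℚ) G - 1))⌋₊ : ℕ) : ℕ∞) :=
  ubx3 (fun _ hp => pun3 hp (hA _ hp) (H35.NS2.bl2_all hp) (H35.NS2.gp2_all hp)) n hn G hG hnil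

/-- version for least index elements of odd order -/
theorem malle_odd (hA : ∀ p : ℕ, p.Prime → p ≠ 2 → APst3 p) (n : ℕ) (hn : 2 ≤ n)
    (G : Subgroup (Equiv.Perm (Fin n))) (hG : MulAction.IsPretransitive G (Fin n))
    (hnil : Group.IsNilpotent G)
    (h2 : ∀ h : G, h ≠ 1 → Spec.ind (h : Equiv.Perm (Fin n)) = Spec.indG G → orderOf h ≠ 2) :
    ∃ m : ℕ, 0 < m ∧ ∃ K₀ : IntermediateField ℚ (AlgebraicClosure ℚ), NumberField K₀ ∧
      ∀ K : IntermediateField ℚ (AlgebraicClosure ℚ), ∀ _ : NumberField K,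
      (∃ z : K, IsPrimitiveRoot z m) →
        (K₀ ≤ K ∨ Spec.IsGaloisGroup K (AlgebraicClosure ℚ) G) →
          (∀ B : ℝ, Spec.nK K (AlgebraicClosure ℚ) G B ≠ ⊤) ∧
          ∃ C : ℝ, 0 < C ∧ Filter.Tendsto
            (fun B : ℝ => ((Spec.nK K (AlgebraicClosure ℚ) G B).toNat : ℝ) /
              (B ^ (1 / (Spec.indG G : ℝ)) *
                Real.log B ^ (Spec.betaAll K (AlgebraicClosure ℚ) G - 1)))
            Filter.atTop (nhds C) :=
  fin3g n hn G hG hnil fun _ hp ⟨h, hh, ho⟩ =>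
    plv3 hp (hA _ hp fun h0 => h2 h hh.1 hh.2 (ho.trans h0)) (H35.NS2.bl2_all hp)
      (H35.NS2.gp2_all hp)

end H51.F3
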